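import Pool.Agent.H775.KE.Main

/-!
# Orbit intersections for two étale self-maps of a compact Kähler manifold

`X` is a compact connected complex manifold (modelled on the finite-dimensional complex normed space
`E`), `f` and `g` are étale self-maps of `X` (local biholomorphisms), `f` multiplies the class of a
Kähler metric `q` by `δ > 1` and `g` multiplies the class of a Kähler metric `q'` by `δ' > 1`. Then, for
points `P`, `Q` with infinite orbits, the set of the pairs `(m, n)` with `f^m P = g^n Q` is a union of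
finitely many linear families.
-/

set_option autoImplicit false

open scoped Manifold ContDiff Topology

namespace Pool.Agent.Results.MP_a7ed83_ag.KahlerEtale

open Pool.Agent.H775.KE

theorem result (E : Type) [NormedAddCommGroup E] [NormedSpace ℂ E] [FiniteDimensional ℂ E]
    (X : Type) [TopologicalSpace X] [ChartedSpace E X] [IsManifold 𝓘(ℂ, E) ω X]
    [T2Space X] [CompactSpace X] [ConnectedSpace X]
    (q q' : ∀ x : X, TangentSpace 𝓘(ℂ, E) x → ℝ)
    (hq : IsKahlerMetric q) (hq' : IsKahlerMetric q')
    (f g : X → X) (hf : IsLocalDiffeomorph 𝓘(ℂ, E) 𝓘(ℂ, E) ω f)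
    (hg : IsLocalDiffeomorph 𝓘(ℂ, E) 𝓘(ℂ, E) ω g)
    (δ δ' : ℝ) (hδ : 1 < δ) (hδ' : 1 < δ')
    (hfq : MultipliesClass q f δ) (hgq : MultipliesClass q' g δ')
    (P Q : X) (hP : (Set.range fun m : ℕ => f^[m] P).Infinite)
    (hQ : (Set.range fun n : ℕ => g^[n] Q).Infinite) :
    FinLin {p : ℕ × ℕ | f^[p.1] P = g^[p.2] Q} :=
  main q q' hq hq' f g hf hg δ δ' hδ hδ' hfq hgq P Q hP hQ

end Pool.Agent.Results.MP_a7ed83_ag.KahlerEtale
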